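import Mathlib

/-!
A counterexample to the Pythagorean-type inequality for isoperimetric profiles of products:
both factors are the two-sided exponential law, and the competitor is a diagonal half-plane.
-/

open MeasureTheory Set Filter Topology
open scoped ENNReal

namespace Pool.Agent.Results.MP_662df3_gt.LaplaceCounter

/-- The boundary measure `μ⁺(A) = liminf_{r → 0+} (μ(A_r) - μ(A)) / r`, where `A_r` is the
r-neighbourhood `{x | dist(x, A) < r}` of `A`. -/
noncomputable def boundaryMeasure {X : Type} [PseudoMetricSpace X] [MeasurableSpace X]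
    (μ : Measure X) (A : Set X) : ℝ≥0∞ :=
  Filter.liminf (fun r : ℝ => (μ (Metric.thickening r A) - μ A) / ENNReal.ofReal r)
    (nhdsWithin (0 : ℝ) (Set.Ioi 0))

/-- The isoperimetric profile `I_μ(a) = inf {μ⁺(A) : A Borel, μ(A) = a}`. -/
noncomputable def profile {X : Type} [PseudoMetricSpace X] [MeasurableSpace X]
    (μ : Measure X) (a : ℝ) : ℝ≥0∞ :=
  ⨅ (A : Set X) (_ : MeasurableSet A) (_ : μ A = ENNReal.ofReal a), boundaryMeasure μ A

/-- The ratio `R_μ(a) = I_μ(a) / a`. -/
noncomputable def ratio {X : Type} [PseudoMetricSpace X] [MeasurableSpace X]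
    (μ : Measure X) (a : ℝ) : ℝ≥0∞ :=
  profile μ a / ENNReal.ofReal a

/-- `μ` has density `e^{-V}` with `V : ℝ → (-∞, ∞]` convex. -/
def IsLogConcave (μ : Measure ℝ) : Prop :=
  ∃ V : ℝ → EReal, (∀ x, V x ≠ ⊥) ∧
    (∀ x y s t : ℝ, 0 < s → 0 < t → s + t = 1 →
      V (s * x + t * y) ≤ (s : EReal) * V x + (t : EReal) * V y) ∧
    μ = MeasureTheory.volume.withDensity (fun x => EReal.exp (-V x))

/-- `μ(-A) = μ(A)` for every Borel set `A`. -/
def IsSymmetric (μ : Measure ℝ) : Prop :=
  ∀ A : Set ℝ, MeasurableSet A → μ (-A) = μ A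

/-- The product measure `μ₁ ⊗ μ₂` on the Euclidean plane. -/
noncomputable def planeProd (μ₁ μ₂ : Measure ℝ) : Measure (EuclideanSpace ℝ (Fin 2)) :=
  (μ₁.prod μ₂).map (fun p : ℝ × ℝ => WithLp.toLp 2 ![p.1, p.2])

/-! ### The two-sided exponential law -/

/-- real density -/
noncomputable def dens (x : ℝ) : ℝ := Real.exp (-|x|) / 2

/-- the two-sided exponential law -/
noncomputable def lap : Measure ℝ := volume.withDensity (fun x => ENNReal.ofReal (dens x))

lemma dens_cont : Continuous dens := by
  unfold dens; fun_prop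

lemma dens_pos (x : ℝ) : 0 < dens x := by
  unfold dens; positivity

lemma dens_meas : Measurable (fun x => ENNReal.ofReal (dens x)) :=
  dens_cont.measurable.ennreal_ofReal

lemma lap_apply (B : Set ℝ) (hB : MeasurableSet B) :
    lap B = ∫⁻ x in B, ENNReal.ofReal (dens x) := by
  unfold lap; exact withDensity_apply _ hB

lemma lap_Ici (u : ℝ) (hu : 0 ≤ u) : lap (Ici u) = ENNReal.ofReal (Real.exp (-u) / 2) := by
  rw [lap_apply _ measurableSet_Ici, setLIntegral_congr Ioi_ae_eq_Ici.symm]
  have h1 : ∫⁻ x in Ioi u, ENNReal.ofReal (dens x)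
      = ∫⁻ x in Ioi u, ENNReal.ofReal (Real.exp (-x) / 2) := by
    apply setLIntegral_congr_fun measurableSet_Ioi
    intro x hx
    have : 0 ≤ x := le_trans hu (le_of_lt hx)
    simp only [dens, abs_of_nonneg this]
  rw [h1, ← ofReal_integral_eq_lintegral_ofReal]
  · rw [integral_div, integral_exp_neg_Ioi]
  · exact (integrableOn_exp_neg_Ioi u).div_const 2
  · exact Eventually.of_forall (fun x => by positivity)

lemma lap_Iio (u : ℝ) (hu : u ≤ 0) : lap (Iio u) = ENNReal.ofReal (Real.exp u / 2) := by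
  rw [lap_apply _ measurableSet_Iio, setLIntegral_congr Iio_ae_eq_Iic]
  have h1 : ∫⁻ x in Iic u, ENNReal.ofReal (dens x)
      = ∫⁻ x in Iic u, ENNReal.ofReal (Real.exp x / 2) := by
    apply setLIntegral_congr_fun measurableSet_Iic
    intro x hx
    have : x ≤ 0 := le_trans hx hu
    simp only [dens, abs_of_nonpos this, neg_neg]
  rw [h1, ← ofReal_integral_eq_lintegral_ofReal]
  · rw [integral_div, integral_exp_Iic]
  · exact (integrableOn_exp_Iic u).div_const 2
  · exact Eventually.of_forall (fun x => by positivity)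

lemma lap_prob : IsProbabilityMeasure lap := by
  constructor
  have h : (univ : Set ℝ) = Iio 0 ∪ Ici 0 := (Iio_union_Ici).symm
  rw [h, measure_union (Iio_disjoint_Ici le_rfl) measurableSet_Ici, lap_Ici 0 le_rfl,
    lap_Iio 0 le_rfl, ← ENNReal.ofReal_add (by positivity) (by positivity)]
  norm_num

lemma lap_Ici_neg (u : ℝ) (hu : u ≤ 0) :
    lap (Ici u) = ENNReal.ofReal (1 - Real.exp u / 2) := by
  have := lap_prob
  have h : Ici u = (Iio u)ᶜ := compl_Iio.symm
  rw [h, prob_compl_eq_one_sub measurableSet_Iio, lap_Iio u hu,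
    ENNReal.ofReal_sub _ (by positivity)]
  simp

lemma lap_logConcave : IsLogConcave lap := by
  refine ⟨fun x => ((|x| + Real.log 2 : ℝ) : EReal), fun x => EReal.coe_ne_bot _, ?_, ?_⟩
  · intro x y s t hs ht hst
    rw [← EReal.coe_mul, ← EReal.coe_mul, ← EReal.coe_add, EReal.coe_le_coe_iff]
    have h1 : |s * x + t * y| ≤ s * |x| + t * |y| := by
      calc |s * x + t * y| ≤ |s * x| + |t * y| := abs_add_le _ _
        _ = s * |x| + t * |y| := by rw [abs_mul, abs_mul, abs_of_pos hs, abs_of_pos ht]
    have h2 : Real.log 2 = s * Real.log 2 + t * Real.log 2 := by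
      rw [← add_mul, hst, one_mul]
    linarith
  · unfold lap
    congr 1
    funext x
    rw [← EReal.coe_neg, EReal.exp_coe]
    congr 1
    unfold dens
    rw [neg_add, Real.exp_add, Real.exp_neg (Real.log 2), Real.exp_log (by norm_num)]
    ring

lemma lap_symm : IsSymmetric lap := by
  intro A hA
  rw [lap_apply _ hA, lap_apply _ hA.neg, ← lintegral_indicator hA.neg, ← lintegral_indicator hA,
    ← lintegral_neg_eq_self]
  congr 1
  funext x
  by_cases hx : x ∈ A
  · have : -x ∈ -A := by simpa using hx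
    simp [indicator, hx, dens]
  · have : -x ∉ -A := by simpa using hx
    simp [indicator, hx]

/-! ### The isoperimetric inequality on the line -/

lemma lap_shift (B : Set ℝ) (hB : MeasurableSet B) (s c : ℝ)
    (h : ∀ x ∈ B, dens (x - s) = Real.exp c * dens x) :
    lap ((fun x => x + s) ⁻¹' B) = ENNReal.ofReal (Real.exp c) * lap B := by
  have hB' : MeasurableSet ((fun x => x + s) ⁻¹' B) := (measurable_add_const s) hB
  rw [lap_apply _ hB, lap_apply _ hB', ← lintegral_indicator hB', ← lintegral_indicator hB,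
    ← lintegral_const_mul _ (dens_meas.indicator hB), ← lintegral_sub_right_eq_self _ s]
  congr 1
  funext x
  by_cases hx : x ∈ B
  · simp [indicator, hx, h x hx, ENNReal.ofReal_mul (Real.exp_pos c).le]
  · simp [indicator, hx]

lemma lap_thick_aux (B : Set ℝ) (hB : MeasurableSet B) (r s : ℝ) (hs : 0 ≤ s) (hsr : s < r)
    (h : ∀ x ∈ B, r ≤ |x|) :
    ENNReal.ofReal (Real.exp s) * lap B ≤ lap (Metric.thickening r B) := by
  set Bp := B ∩ Ici 0 with hBp
  set Bm := B ∩ Iio 0 with hBm
  have mBp : MeasurableSet Bp := hB.inter measurableSet_Ici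
  have mBm : MeasurableSet Bm := hB.inter measurableSet_Iio
  have hsplit : lap B = lap Bp + lap Bm := by
    rw [← measure_union _ mBm]
    · congr 1
      rw [hBp, hBm, ← inter_union_distrib_left, union_comm, Iio_union_Ici, inter_univ]
    · exact Disjoint.mono inter_subset_right inter_subset_right (Iio_disjoint_Ici le_rfl).symm
  have e1 := lap_shift Bp mBp s s (by
    intro x hx
    have h0 : 0 ≤ x := hx.2
    have h1 := h x hx.1
    rw [abs_of_nonneg h0] at h1
    unfold dens
    rw [abs_of_nonneg h0, abs_of_nonneg (by linarith), ← mul_div_assoc, ← Real.exp_add]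
    congr 2; ring)
  have e2 := lap_shift Bm mBm (-s) s (by
    intro x hx
    have h0 : x < 0 := hx.2
    have h1 := h x hx.1
    rw [abs_of_neg h0] at h1
    unfold dens
    rw [abs_of_neg h0, abs_of_nonpos (by linarith), ← mul_div_assoc, ← Real.exp_add]
    congr 2; ring)
  rw [hsplit, mul_add, ← e1, ← e2, ← measure_union _ ((measurable_add_const (-s)) mBm)]
  · apply measure_mono
    rintro x (hx | hx)
    · rw [Metric.mem_thickening_iff]
      refine ⟨x + s, hx.1, ?_⟩
      rw [Real.dist_eq]
      have : x - (x + s) = -s := by ring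
      rw [this, abs_neg, abs_of_nonneg hs]; exact hsr
    · rw [Metric.mem_thickening_iff]
      refine ⟨x + -s, hx.1, ?_⟩
      rw [Real.dist_eq]
      have : x - (x + -s) = s := by ring
      rw [this, abs_of_nonneg hs]; exact hsr
  · rw [Set.disjoint_left]
    intro x hx1 hx2
    have a1 : 0 ≤ x + s := hx1.2
    have a2 : x + -s < 0 := hx2.2
    have b1 := h _ hx1.1
    have b2 := h _ hx2.1
    rw [abs_of_nonneg a1] at b1
    rw [abs_of_neg a2] at b2
    linarith

lemma lap_thick (B : Set ℝ) (hB : MeasurableSet B) (r : ℝ) (hr : 0 < r)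
    (h : ∀ x ∈ B, r ≤ |x|) :
    (1 + r) * lap.real B ≤ lap.real (Metric.thickening r B) := by
  have := lap_prob
  have key : ∀ s, 0 ≤ s → s < r → (1 + s) * lap.real B ≤ lap.real (Metric.thickening r B) := by
    intro s hs hsr
    have h1 := lap_thick_aux B hB r s hs hsr h
    have h2 := ENNReal.toReal_mono (measure_ne_top lap _) h1
    rw [ENNReal.toReal_mul, ENNReal.toReal_ofReal (Real.exp_pos s).le] at h2
    have h3 : 1 + s ≤ Real.exp s := by linarith [Real.add_one_le_exp s]
    have h4 : 0 ≤ lap.real B := measureReal_nonneg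
    calc (1 + s) * lap.real B ≤ Real.exp s * lap.real B := mul_le_mul_of_nonneg_right h3 h4
      _ ≤ _ := h2
  apply le_of_forall_pos_le_add
  intro ε hε
  have h4 : 0 ≤ lap.real B := measureReal_nonneg
  have h5 : lap.real B ≤ 1 := measureReal_le_one
  by_cases hc : r ≤ ε
  · have := key 0 le_rfl hr
    nlinarith
  · push Not at hc
    have := key (r - ε) (by linarith) (by linarith)
    nlinarith

lemma lap_gain (A : Set ℝ) (hA : MeasurableSet A) (ha : lap.real A ≤ 1 / 2) :
    ∀ᶠ r in nhdsWithin (0 : ℝ) (Ioi 0),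
      lap.real A * (r / (1 + r)) ≤ lap.real (Metric.thickening r A) - lap.real A := by
  have := lap_prob
  have h4 : 0 ≤ lap.real A := measureReal_nonneg
  by_cases hc : ∃ d > 0, ∀ x ∈ A, d ≤ |x|
  · obtain ⟨d, hd, hdA⟩ := hc
    filter_upwards [Ioo_mem_nhdsGT hd] with r hr
    have h1 := lap_thick A hA r hr.1 (fun x hx => le_trans hr.2.le (hdA x hx))
    have h2 : r / (1 + r) ≤ r := by
      rw [div_le_iff₀ (by linarith [hr.1])]; nlinarith [hr.1]
    nlinarith
  · push Not at hc
    filter_upwards [self_mem_nhdsWithin] with r hr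
    have hr : 0 < r := hr
    set C := (Metric.thickening r A)ᶜ with hC
    have mT : MeasurableSet (Metric.thickening r A) := Metric.isOpen_thickening.measurableSet
    have mC : MeasurableSet C := mT.compl
    have hCr : ∀ x ∈ C, r ≤ |x| := by
      intro x hx
      by_contra hlt
      push Not at hlt
      obtain ⟨y, hy, hy2⟩ := hc (r - |x|) (by linarith)
      apply hx
      rw [Metric.mem_thickening_iff]
      refine ⟨y, hy, ?_⟩
      rw [Real.dist_eq]
      have := abs_sub x y
      linarith
    have h1 := lap_thick C mC r hr hCr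
    have h2 : Metric.thickening r C ⊆ Aᶜ := by
      intro x hx hxA
      rw [Metric.mem_thickening_iff] at hx
      obtain ⟨z, hz, hxz⟩ := hx
      apply hz
      rw [Metric.mem_thickening_iff]
      exact ⟨x, hxA, by rwa [dist_comm]⟩
    have h3 : lap.real (Metric.thickening r C) ≤ lap.real Aᶜ := measureReal_mono h2
    rw [probReal_compl_eq_one_sub hA] at h3
    have h6 : lap.real C = 1 - lap.real (Metric.thickening r A) := probReal_compl_eq_one_sub mT
    rw [h6] at h1
    rw [← mul_div_assoc, div_le_iff₀ (by linarith)]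
    nlinarith

lemma lap_boundary (A : Set ℝ) (hA : MeasurableSet A) (a : ℝ) (ha0 : 0 ≤ a) (ha : a ≤ 1 / 2)
    (hAa : lap A = ENNReal.ofReal a) : ENNReal.ofReal a ≤ boundaryMeasure lap A := by
  have := lap_prob
  have hreal : lap.real A = a := by
    rw [measureReal_def, hAa, ENNReal.toReal_ofReal ha0]
  have hlim : Tendsto (fun r : ℝ => ENNReal.ofReal (a / (1 + r))) (nhdsWithin (0 : ℝ) (Ioi 0))
      (nhds (ENNReal.ofReal a)) := by
    apply ENNReal.tendsto_ofReal
    apply Tendsto.mono_left _ nhdsWithin_le_nhds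
    have : ContinuousAt (fun r : ℝ => a / (1 + r)) 0 := by
      apply ContinuousAt.div (by fun_prop) (by fun_prop) (by norm_num)
    simpa using this.tendsto
  rw [← hlim.liminf_eq]
  unfold boundaryMeasure
  refine liminf_le_liminf ?_
  filter_upwards [lap_gain A hA (by rw [hreal]; exact ha), self_mem_nhdsWithin] with r h1 hr
  have hr : 0 < r := hr
  rw [hreal] at h1
  rw [← ofReal_measureReal (measure_ne_top lap (Metric.thickening r A)), hAa,
    ← ENNReal.ofReal_sub _ ha0, ← ENNReal.ofReal_div_of_pos hr]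
  apply ENNReal.ofReal_le_ofReal
  rw [le_div_iff₀ hr]
  calc a / (1 + r) * r = a * (r / (1 + r)) := by ring
    _ ≤ _ := h1

lemma lap_ratio (a : ℝ) (ha0 : 0 < a) (ha : a ≤ 1 / 2) : 1 ≤ ratio lap a := by
  unfold ratio
  rw [ENNReal.le_div_iff_mul_le (Or.inl (by simpa using ha0)) (Or.inl ENNReal.ofReal_ne_top),
    one_mul]
  unfold profile
  refine le_iInf fun A => le_iInf fun hA => le_iInf fun hAa => ?_
  exact lap_boundary A hA a ha0.le ha hAa

/-! ### The diagonal half-plane -/

/-- tail of the sum of two independent two-sided exponential variables -/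
noncomputable def tail (t : ℝ) : ℝ := (2 + t) * Real.exp (-t) / 4

/-- the half-plane -/
def half (t : ℝ) : Set (EuclideanSpace ℝ (Fin 2)) := {p | t ≤ p 0 + p 1}

lemma half_meas (t : ℝ) : MeasurableSet (half t) := by
  apply IsClosed.measurableSet
  exact isClosed_le continuous_const (by fun_prop)

lemma emb_meas : Measurable (fun p : ℝ × ℝ =>
    (WithLp.toLp 2 ![p.1, p.2] : EuclideanSpace ℝ (Fin 2))) := by
  apply Continuous.measurable
  fun_prop

lemma plane_half (t : ℝ) (ht : 0 ≤ t) :
    planeProd lap lap (half t) = ENNReal.ofReal (tail t) := by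
  have := lap_prob
  unfold planeProd
  rw [Measure.map_apply emb_meas (half_meas t), Measure.prod_apply (emb_meas (half_meas t))]
  have h0 : ∀ x : ℝ, (Prod.mk x ⁻¹' ((fun p : ℝ × ℝ =>
      (WithLp.toLp 2 ![p.1, p.2] : EuclideanSpace ℝ (Fin 2))) ⁻¹' half t)) = Ici (t - x) := by
    intro x
    ext y
    simp [half]
    constructor <;> intro h <;> linarith
  simp only [h0]
  have hmeas : Measurable (fun x : ℝ => lap (Ici (t - x))) := by
    have : Monotone (fun x : ℝ => lap (Ici (t - x))) := by
      intro x y hxy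
      exact measure_mono (Ici_subset_Ici.mpr (by linarith))
    exact this.measurable
  have h1 : ∫⁻ x, lap (Ici (t - x)) ∂lap
      = ∫⁻ x, ENNReal.ofReal (dens x) * lap (Ici (t - x)) := by
    have := lintegral_withDensity_eq_lintegral_mul volume dens_meas hmeas
    exact this
  rw [h1]
  have hu : (univ : Set ℝ) = Iic 0 ∪ (Ioc 0 t ∪ Ioi t) := by
    rw [Ioc_union_Ioi_eq_Ioi ht, Iic_union_Ioi]
  rw [← setLIntegral_univ, hu,
    lintegral_union (measurableSet_Ioc.union measurableSet_Ioi)
      (by rw [Ioc_union_Ioi_eq_Ioi ht]; exact Iic_disjoint_Ioi le_rfl),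
    lintegral_union measurableSet_Ioi (Ioc_disjoint_Ioi le_rfl)]
  have i1 : ∫⁻ x in Iic (0 : ℝ), ENNReal.ofReal (dens x) * lap (Ici (t - x))
      = ENNReal.ofReal (Real.exp (-t) / 8) := by
    have e : ∫⁻ x in Iic (0 : ℝ), ENNReal.ofReal (dens x) * lap (Ici (t - x))
        = ∫⁻ x in Iic (0 : ℝ), ENNReal.ofReal (Real.exp (-t) / 4 * Real.exp (2 * x)) := by
      apply setLIntegral_congr_fun measurableSet_Iic
      intro x hx
      have hx : x ≤ 0 := hx
      simp only
      rw [lap_Ici _ (by linarith), ← ENNReal.ofReal_mul (dens_pos x).le]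
      congr 1
      unfold dens
      rw [abs_of_nonpos hx, neg_neg, show -(t - x) = -t + x by ring, Real.exp_add, two_mul,
        Real.exp_add]
      ring
    rw [e, ← ofReal_integral_eq_lintegral_ofReal]
    · rw [integral_const_mul, integral_exp_mul_Iic (by norm_num)]
      congr 1
      simp
      ring
    · exact (integrableOn_exp_mul_Iic (by norm_num) 0).const_mul _
    · exact Eventually.of_forall (fun x => by positivity)
  have i2 : ∫⁻ x in Ioc (0 : ℝ) t, ENNReal.ofReal (dens x) * lap (Ici (t - x))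
      = ENNReal.ofReal (Real.exp (-t) / 4 * t) := by
    have e : ∫⁻ x in Ioc (0 : ℝ) t, ENNReal.ofReal (dens x) * lap (Ici (t - x))
        = ∫⁻ x in Ioc (0 : ℝ) t, ENNReal.ofReal (Real.exp (-t) / 4) := by
      apply setLIntegral_congr_fun measurableSet_Ioc
      intro x hx
      simp only
      rw [lap_Ici _ (by linarith [hx.2]), ← ENNReal.ofReal_mul (dens_pos x).le]
      congr 1
      unfold dens
      rw [abs_of_pos hx.1, show -t = -x + -(t - x) by ring, Real.exp_add]
      ring
    rw [e, setLIntegral_const, Real.volume_Ioc, ← ENNReal.ofReal_mul (by positivity), sub_zero]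
  have i3 : ∫⁻ x in Ioi t, ENNReal.ofReal (dens x) * lap (Ici (t - x))
      = ENNReal.ofReal (3 * Real.exp (-t) / 8) := by
    have e : ∫⁻ x in Ioi t, ENNReal.ofReal (dens x) * lap (Ici (t - x))
        = ∫⁻ x in Ioi t,
          ENNReal.ofReal (Real.exp (-x) / 2 - Real.exp t / 4 * Real.exp (-2 * x)) := by
      apply setLIntegral_congr_fun measurableSet_Ioi
      intro x hx
      have hx : t < x := hx
      simp only
      rw [lap_Ici_neg _ (by linarith), ← ENNReal.ofReal_mul (dens_pos x).le]
      congr 1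
      unfold dens
      rw [abs_of_pos (by linarith), show t - x = t + -x by ring, Real.exp_add,
        show -2 * x = -x + -x by ring, Real.exp_add]
      ring
    have int1 : IntegrableOn (fun x : ℝ => Real.exp (-x) / 2) (Ioi t) :=
      (integrableOn_exp_neg_Ioi t).div_const 2
    have int2 : IntegrableOn (fun x : ℝ => Real.exp t / 4 * Real.exp (-2 * x)) (Ioi t) :=
      (integrableOn_exp_mul_Ioi (by norm_num) t).const_mul _
    rw [e, ← ofReal_integral_eq_lintegral_ofReal]
    · rw [integral_sub int1 int2, integral_div, integral_exp_neg_Ioi, integral_const_mul,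
        integral_exp_mul_Ioi (by norm_num)]
      congr 1
      have : Real.exp t * Real.exp (-2 * t) = Real.exp (-t) := by
        rw [← Real.exp_add]; congr 1; ring
      linear_combination (-1 / 8 : ℝ) * this
    · exact int1.sub int2
    · rw [EventuallyLE, ae_restrict_iff' measurableSet_Ioi]
      refine Eventually.of_forall (fun x hx => ?_)
      have hx : t < x := hx
      have h1 : Real.exp t * Real.exp (-2 * x) ≤ Real.exp (-x) := by
        rw [← Real.exp_add]; exact Real.exp_le_exp.mpr (by linarith)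
      have h2 := Real.exp_pos (-x)
      simp only [Pi.zero_apply]
      linarith
  rw [i1, i2, i3, ← ENNReal.ofReal_add (by positivity) (by positivity),
    ← ENNReal.ofReal_add (by positivity) (by positivity)]
  congr 1
  unfold tail
  ring

lemma thick_half (t r : ℝ) : Metric.thickening r (half t) ⊆ half (t - Real.sqrt 2 * r) := by
  intro p hp
  rw [Metric.mem_thickening_iff] at hp
  obtain ⟨q, hq, hpq⟩ := hp
  have hq : t ≤ q 0 + q 1 := hq
  change t - Real.sqrt 2 * r ≤ p 0 + p 1
  rw [EuclideanSpace.dist_eq, Fin.sum_univ_two, Real.dist_eq, Real.dist_eq, sq_abs, sq_abs] at hpq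
  have h1 : (q 0 - p 0) + (q 1 - p 1)
      ≤ Real.sqrt 2 * Real.sqrt ((p 0 - q 0) ^ 2 + (p 1 - q 1) ^ 2) := by
    rw [← Real.sqrt_mul (by norm_num)]
    apply Real.le_sqrt_of_sq_le
    nlinarith [sq_nonneg ((q 0 - p 0) - (q 1 - p 1))]
  have h2 : Real.sqrt 2 * Real.sqrt ((p 0 - q 0) ^ 2 + (p 1 - q 1) ^ 2) ≤ Real.sqrt 2 * r :=
    mul_le_mul_of_nonneg_left hpq.le (Real.sqrt_nonneg 2)
  linarith

lemma tail_deriv (t : ℝ) : HasDerivAt (fun r : ℝ => tail (t - Real.sqrt 2 * r))
    (Real.sqrt 2 * (1 + t) * Real.exp (-t) / 4) 0 := by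
  unfold tail
  have h1 : HasDerivAt (fun r : ℝ => t - Real.sqrt 2 * r) (-Real.sqrt 2) 0 := by
    simpa using ((hasDerivAt_id (0 : ℝ)).const_mul (Real.sqrt 2)).const_sub t
  have h2 := ((h1.const_add 2).mul h1.neg.exp).div_const 4
  refine HasDerivAt.congr_deriv h2 ?_
  simp only [Pi.neg_apply, mul_zero, sub_zero]
  ring

lemma half_boundary (t : ℝ) (ht : 0 < t) :
    boundaryMeasure (planeProd lap lap) (half t)
      ≤ ENNReal.ofReal (Real.sqrt 2 * (1 + t) * Real.exp (-t) / 4) := by
  have hd := (tail_deriv t).tendsto_slope_zero_right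
  have hlim := ENNReal.tendsto_ofReal hd
  rw [← hlim.liminf_eq]
  unfold boundaryMeasure
  refine liminf_le_liminf ?_
  have hs : 0 < Real.sqrt 2 := by positivity
  filter_upwards [Ioo_mem_nhdsGT (div_pos ht hs)] with r hr
  have hr2 : 0 ≤ t - Real.sqrt 2 * r := by
    have := (lt_div_iff₀ hs).mp hr.2
    linarith
  have htail : 0 ≤ tail t := by unfold tail; positivity
  calc (planeProd lap lap (Metric.thickening r (half t)) - planeProd lap lap (half t))
        / ENNReal.ofReal r
      ≤ (planeProd lap lap (half (t - Real.sqrt 2 * r)) - planeProd lap lap (half t))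
        / ENNReal.ofReal r := by
        gcongr
        exact thick_half t r
    _ = _ := by
        rw [plane_half _ hr2, plane_half _ ht.le, ← ENNReal.ofReal_sub _ htail,
          ← ENNReal.ofReal_div_of_pos hr.1]
        congr 1
        simp only [zero_add, mul_zero, sub_zero, smul_eq_mul]
        ring

lemma tail_le : tail (5 / 4) ≤ 1 / 4 := by
  unfold tail
  have h := Real.sum_le_exp_of_nonneg (x := 5 / 4) (by norm_num) 4
  simp only [Finset.sum_range_succ, Finset.sum_range_zero, Nat.factorial] at h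
  norm_num at h
  have h2 : Real.exp (-(5 / 4)) * Real.exp (5 / 4) = 1 := by
    rw [← Real.exp_add]; simp
  have h3 := Real.exp_pos (-(5 / 4 : ℝ))
  nlinarith

lemma plane_ratio : ratio (planeProd lap lap) (tail (5 / 4)) < 1 := by
  have hpos : 0 < tail (5 / 4) := by unfold tail; positivity
  unfold ratio
  rw [ENNReal.div_lt_iff (Or.inl (by simpa using hpos)) (Or.inl ENNReal.ofReal_ne_top), one_mul]
  have h1 : profile (planeProd lap lap) (tail (5 / 4))
      ≤ boundaryMeasure (planeProd lap lap) (half (5 / 4)) := by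
    unfold profile
    exact iInf_le_of_le (half (5 / 4)) (iInf_le_of_le (half_meas _)
      (iInf_le_of_le (plane_half _ (by norm_num)) le_rfl))
  refine lt_of_le_of_lt (h1.trans (half_boundary _ (by norm_num))) ?_
  rw [ENNReal.ofReal_lt_ofReal_iff hpos]
  unfold tail
  have h2 : Real.sqrt 2 < 13 / 9 := by
    rw [Real.sqrt_lt' (by norm_num)]; norm_num
  have h3 := Real.exp_pos (-(5 / 4 : ℝ))
  nlinarith

/-- The Pythagorean-type inequality fails, for two symmetric log-concave laws on the line and
some volume `a` with `0 < a < 1/2`. -/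
theorem result :
    ∃ μ₁ μ₂ : Measure ℝ, IsProbabilityMeasure μ₁ ∧ IsProbabilityMeasure μ₂ ∧
      IsLogConcave μ₁ ∧ IsLogConcave μ₂ ∧ IsSymmetric μ₁ ∧ IsSymmetric μ₂ ∧
      ∃ a : ℝ, 0 < a ∧ a < 1 / 2 ∧
        ratio (planeProd μ₁ μ₂) a ^ 2 <
          ⨅ (a₁ : ℝ) (a₂ : ℝ) (_ : a₁ ∈ Set.Ioc (0 : ℝ) 1) (_ : a₂ ∈ Set.Ioc (0 : ℝ) 1)
            (_ : a₁ * a₂ = a), ratio μ₁ a₁ ^ 2 + ratio μ₂ a₂ ^ 2 := by
  have hpos : 0 < tail (5 / 4) := by unfold tail; positivity
  refine ⟨lap, lap, lap_prob, lap_prob, lap_logConcave, lap_logConcave, lap_symm, lap_symm,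
    tail (5 / 4), hpos, by linarith [tail_le], ?_⟩
  have h1 : ratio (planeProd lap lap) (tail (5 / 4)) ^ 2 < 1 :=
    pow_lt_one₀ zero_le plane_ratio (by norm_num)
  refine lt_of_lt_of_le h1 ?_
  refine le_iInf fun a₁ => le_iInf fun a₂ => le_iInf fun h₁ => le_iInf fun h₂ =>
    le_iInf fun h => ?_
  have ht := tail_le
  by_cases hc : a₁ ≤ 1 / 2
  · exact le_add_right (one_le_pow₀ (lap_ratio a₁ h₁.1 hc))
  · have hc2 : a₂ ≤ 1 / 2 := by
      by_contra hc2
      push Not at hc hc2
      nlinarith
    exact le_add_left (one_le_pow₀ (lap_ratio a₂ h₂.1 hc2))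

end Pool.Agent.Results.MP_662df3_gt.LaplaceCounter
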